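import Mathlib
import Pool.Agent.W541.DL.Stm
set_option autoImplicit false

/-! Maximal inequalities in the directed landscape. -/

namespace Pool.Agent.W7.DL.OTTL

open MeasureTheory ProbabilityTheory Filter Topology Set
open Pool.Agent.W541.DL

/-- A maximal inequality for a continuous family. -/
lemma gen (hO : S_OTT) (Ω : Type) [mΩ : MeasurableSpace Ω] (P : Measure Ω) [hPr : IsProbabilityMeasure P]
    (s t c l : ℝ) (hst : s < t) (G : ℝ → MeasurableSpace Ω) (F E : ℝ → Ω → ℝ) (Full : Ω → ℝ)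
    (hG : ∀ r r', r ∈ Ioo s t → r' ∈ Ioo s t → r ≤ r' → G r ≤ G r')
    (hGle : ∀ r ∈ Ioo s t, G r ≤ mΩ) (hF : ∀ r ∈ Ioo s t, Measurable[G r] (F r))
    (hE : ∀ r ∈ Ioo s t, Measurable (E r))
    (hI : ∀ r ∈ Ioo s t, Indep (G r) (MeasurableSpace.comap (E r) inferInstance) P)
    (hP : ∀ r ∈ Ioo s t, 1 / 2 ≤ P.real {ω | -c ≤ E r ω})
    (hS : ∀ᵐ ω ∂P, ∀ r ∈ Ioo s t, F r ω + E r ω ≤ Full ω)
    (hC : ∀ ω, Continuous fun r : Ioo s t => F r ω) :
    P.real {ω | ∃ r, s < r ∧ r < t ∧ l ≤ F r ω} ≤ 2 * P.real {ω | l - 1 - c ≤ Full ω} := by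
  have : Nonempty (Ioo s t) := ⟨⟨(s + t) / 2, by constructor <;> linarith⟩⟩
  set q : ℕ → Ioo s t := TopologicalSpace.denseSeq (Ioo s t) with hq
  have hd : DenseRange q := TopologicalSpace.denseRange_denseSeq _
  set B : ℕ → Set Ω := fun n => {ω | ∃ i < n + 1, l - 1 ≤ F (q i) ω} with hB
  have hBm : Monotone B := by
    intro m n hmn ω hω
    obtain ⟨i, hi, h⟩ := hω
    exact ⟨i, by omega, h⟩
  have hsub : {ω | ∃ r, s < r ∧ r < t ∧ l ≤ F r ω} ⊆ ⋃ n, B n := by
    intro ω hω
    obtain ⟨r, h1, h2, h3⟩ := hω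
    have ho : IsOpen {r : Ioo s t | l - 1 < F r ω} := isOpen_lt continuous_const (hC ω)
    have hne : ({r : Ioo s t | l - 1 < F r ω}).Nonempty := ⟨⟨r, h1, h2⟩, by
      change l - 1 < F r ω
      linarith⟩
    obtain ⟨n, hn⟩ := hd.exists_mem_open ho hne
    exact mem_iUnion.2 ⟨n, n, by omega, le_of_lt hn⟩
  have hbound : ∀ n, P.real (B n) ≤ 2 * P.real {ω | l - 1 - c ≤ Full ω} := by
    intro n
    set S : Finset ℝ := (Finset.range (n + 1)).image fun i => (q i : ℝ) with hS'
    have hSI : ∀ r ∈ S, r ∈ Ioo s t := by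
      intro r hr
      obtain ⟨i, _, rfl⟩ := Finset.mem_image.1 hr
      exact (q i).2
    have hSn : 0 < S.card := by
      apply Finset.card_pos.2
      exact ⟨q 0, Finset.mem_image.2 ⟨0, Finset.mem_range.2 (by omega), rfl⟩⟩
    set N := S.card with hN
    set ρ : ℕ → ℝ := fun j => S.orderEmbOfFin rfl ⟨min j (N - 1), by omega⟩ with hρ
    have hρI : ∀ j, ρ j ∈ Ioo s t := fun j => hSI _ (Finset.orderEmbOfFin_mem S rfl _)
    have hρm : Monotone ρ := by
      intro i j hij
      apply (S.orderEmbOfFin rfl).monotone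
      rw [Fin.mk_le_mk]
      omega
    have key := hO Ω P N c (l - 1) (fun j => G (ρ j)) (fun j => F (ρ j)) (fun j => E (ρ j)) Full
      hPr (fun i j hij => hG _ _ (hρI i) (hρI j) (hρm hij)) (fun j => hGle _ (hρI j))
      (fun j _ => hF _ (hρI j)) (fun j _ => hE _ (hρI j)) (fun j _ => hI _ (hρI j))
      (fun j _ => hP _ (hρI j))
      (by
        filter_upwards [hS] with ω hω j _ _
        exact hω _ (hρI j))
    refine le_trans (measureReal_mono ?_) key
    intro ω hω
    obtain ⟨i, hi, h⟩ := hω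
    have hm : (q i : ℝ) ∈ S := Finset.mem_image.2 ⟨i, Finset.mem_range.2 hi, rfl⟩
    have hr : (q i : ℝ) ∈ Set.range (S.orderEmbOfFin rfl) := by
      rw [Finset.range_orderEmbOfFin]
      exact hm
    obtain ⟨j, hj⟩ := hr
    refine ⟨j, j.2, ?_⟩
    have : ρ j = q i := by
      rw [← hj]
      simp only [hρ]
      congr 1
      apply Fin.ext
      have := j.2
      simp only
      omega
    rw [this]
    exact h
  have hlim : Tendsto (fun n => P.real (B n)) atTop (𝓝 (P.real (⋃ n, B n))) :=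
    (ENNReal.tendsto_toReal (measure_ne_top P _)).comp (tendsto_measure_iUnion_atTop hBm)
  exact (measureReal_mono hsub).trans (le_of_tendsto' hlim hbound)

variable {Ω : Type} [mΩ : MeasurableSpace Ω] {P : Measure Ω} {L : Ω → C(R4, ℝ)}

lemma val_eq (L : Ω → C(R4, ℝ)) {x s y t : ℝ} (h : s < t) :
    (fun ω => val (L ω) x s y t) = fun ω => L ω ⟨((x, s), (y, t)), h⟩ := by
  funext ω
  simp [val, h]

lemma val_sig (L : Ω → C(R4, ℝ)) {x s y t a b : ℝ} (h : s < t) (ha : a ≤ s) (hb : t ≤ b) :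
    Measurable[sig L a b] fun ω => val (L ω) x s y t := by
  rw [val_eq L h]
  have h1 : MeasurableSpace.comap (fun ω => L ω ⟨((x, s), (y, t)), h⟩) inferInstance ≤
      sig L a b :=
    le_iSup (fun p : {p : R4 // a ≤ p.1.1.2 ∧ p.1.2.2 ≤ b} =>
      MeasurableSpace.comap (fun ω => L ω p.1) inferInstance) ⟨⟨((x, s), (y, t)), h⟩, ha, hb⟩
  exact (comap_measurable _).mono h1 le_rfl

lemma sig_mono (L : Ω → C(R4, ℝ)) {a b a' b' : ℝ} (ha : a' ≤ a) (hb : b ≤ b') :
    sig L a b ≤ sig L a' b' := by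
  refine iSup_le fun p => ?_
  exact le_iSup (fun p : {p : R4 // a' ≤ p.1.1.2 ∧ p.1.2.2 ≤ b'} =>
      MeasurableSpace.comap (fun ω => L ω p.1) inferInstance)
      ⟨p.1, ha.trans p.2.1, p.2.2.trans hb⟩

lemma sig_le (hD : IsDirectedLandscape P L) (a b : ℝ) : sig L a b ≤ mΩ := by
  refine iSup_le fun p => ?_
  exact (hD.meas p.1).comap_le

lemma val_meas (hD : IsDirectedLandscape P L) (x s y t : ℝ) :
    Measurable fun ω => val (L ω) x s y t := by
  by_cases h : s < t
  · rw [val_eq L h]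
    exact hD.meas _
  · have : (fun ω => val (L ω) x s y t) = fun _ => 0 := by
      funext ω
      simp [val, h]
    rw [this]
    exact measurable_const

lemma indep2 (hD : IsDirectedLandscape P L) {a b c : ℝ} :
    Indep (sig L a b) (sig L b c) P := by
  have h := hD.indep 2 ![a, b] ![b, c] (by
    intro i j hij
    fin_cases i <;> fin_cases j <;> simp_all)
  have := h.indep (show (0 : Fin 2) ≠ 1 by decide)
  simpa using this

lemma half (hL : S_LAWL) (hD : IsDirectedLandscape P L) {c e : ℝ} (hc : 0 ≤ c)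
    (hh : 1 / 2 ≤ P.real {ω | -c ≤ val (L ω) 0 0 0 1}) (b s t : ℝ) (hst : s < t)
    (hte : t - s ≤ e) :
    1 / 2 ≤ P.real {ω | -(c * e ^ ((1 : ℝ) / 3)) ≤ val (L ω) b s b t} := by
  have := hD.prob
  have h1 := hL Ω P L hD b b s t hst
  have h2 : P.real {ω | -(c * e ^ ((1 : ℝ) / 3)) ≤ val (L ω) b s b t} =
      P.real {ω | -(c * e ^ ((1 : ℝ) / 3)) ≤
        (t - s) ^ ((1 : ℝ) / 3) * val (L ω) 0 0 0 1 - (b - b) ^ 2 / (t - s)} := by
    have := h1.measure_mem_eq (measurableSet_Ici (a := -(c * e ^ ((1 : ℝ) / 3))))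
    exact congrArg ENNReal.toReal this
  rw [h2]
  refine hh.trans (measureReal_mono ?_)
  intro ω hω
  simp only [mem_ofPred_eq] at hω ⊢
  have h3 : 0 < t - s := by linarith
  have h4 : (t - s) ^ ((1 : ℝ) / 3) ≤ e ^ ((1 : ℝ) / 3) :=
    Real.rpow_le_rpow h3.le hte (by norm_num)
  have h5 : 0 ≤ (t - s) ^ ((1 : ℝ) / 3) := by positivity
  have h6 : (t - s) ^ ((1 : ℝ) / 3) * (-c) ≤ (t - s) ^ ((1 : ℝ) / 3) * val (L ω) 0 0 0 1 :=
    mul_le_mul_of_nonneg_left hω h5
  have h7 : c * (t - s) ^ ((1 : ℝ) / 3) ≤ c * e ^ ((1 : ℝ) / 3) := mul_le_mul_of_nonneg_left h4 hc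
  simp only [sub_self, ne_eq, OfNat.ofNat_ne_zero, not_false_eq_true, zero_pow, zero_div, sub_zero]
  linarith

/-- Maximal inequalities in the directed landscape. -/
theorem main (hO : S_OTT) (hL : S_LAWL) : S_OTTL := by
  intro Ω _ P L c hD hc hh x s b e l he
  have := hD.prob
  have hst : s < s + e := by linarith
  constructor
  · refine gen hO Ω P s (s + e) (c * e ^ ((1 : ℝ) / 3)) l hst (fun r => sig L s r)
      (fun r ω => val (L ω) x s b r) (fun r ω => val (L ω) b r b (s + e))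
      (fun ω => val (L ω) x s b (s + e)) ?_ ?_ ?_ ?_ ?_ ?_ ?_ ?_
    · exact fun r r' _ _ h => sig_mono L le_rfl h
    · exact fun r _ => sig_le hD _ _
    · exact fun r hr => val_sig L hr.1 le_rfl le_rfl
    · exact fun r _ => val_meas hD _ _ _ _
    · intro r hr
      refine indep_of_indep_of_le_right (indep2 hD (a := s) (b := r) (c := s + e)) ?_
      exact (val_sig L hr.2 le_rfl le_rfl).comap_le
    · intro r hr
      exact half hL hD hc hh b r (s + e) hr.2 (by linarith [hr.1])
    · filter_upwards [hD.comp] with ω hω r hr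
      exact (hω x b s r (s + e) hr.1 hr.2).2 ⟨b, rfl⟩
    · intro ω
      have : (fun r : Ioo s (s + e) => val (L ω) x s b r) =
          fun r : Ioo s (s + e) => L ω ⟨((x, s), (b, (r : ℝ))), r.2.1⟩ := by
        funext r
        have := r.2.1
        simp [val, this]
      rw [this]
      exact (L ω).continuous.comp (Continuous.subtype_mk (by fun_prop) _)
  · have hset : {ω | ∃ r, s < r ∧ r < s + e ∧ l ≤ val (L ω) b r x (s + e)} =
        {ω | ∃ r, s < r ∧ r < s + e ∧ l ≤ val (L ω) b (2 * s + e - r) x (s + e)} := by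
      ext ω
      constructor
      · rintro ⟨r, h1, h2, h3⟩
        exact ⟨2 * s + e - r, by linarith, by linarith, by simpa using h3⟩
      · rintro ⟨r, h1, h2, h3⟩
        exact ⟨2 * s + e - r, by linarith, by linarith, h3⟩
    rw [hset]
    refine gen hO Ω P s (s + e) (c * e ^ ((1 : ℝ) / 3)) l hst (fun r => sig L (2 * s + e - r) (s + e))
      (fun r ω => val (L ω) b (2 * s + e - r) x (s + e))
      (fun r ω => val (L ω) b s b (2 * s + e - r))
      (fun ω => val (L ω) b s x (s + e)) ?_ ?_ ?_ ?_ ?_ ?_ ?_ ?_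
    · exact fun r r' _ _ h => sig_mono L (by linarith) le_rfl
    · exact fun r _ => sig_le hD _ _
    · exact fun r hr => val_sig L (by linarith [hr.1]) le_rfl le_rfl
    · exact fun r _ => val_meas hD _ _ _ _
    · intro r hr
      refine (indep_of_indep_of_le_left
        (indep2 hD (a := s) (b := 2 * s + e - r) (c := s + e)) ?_).symm
      exact (val_sig L (by linarith [hr.2]) le_rfl le_rfl).comap_le
    · intro r hr
      exact half hL hD hc hh b s (2 * s + e - r) (by linarith [hr.2]) (by linarith [hr.1])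
    · filter_upwards [hD.comp] with ω hω r hr
      have := (hω b x s (2 * s + e - r) (s + e) (by linarith [hr.2]) (by linarith [hr.1])).2 ⟨b, rfl⟩
      rw [add_comm]
      exact this
    · intro ω
      have : (fun r : Ioo s (s + e) => val (L ω) b (2 * s + e - r) x (s + e)) =
          fun r : Ioo s (s + e) => L ω ⟨((b, 2 * s + e - (r : ℝ)), (x, s + e)), by
            have := r.2.1
            change 2 * s + e - (r : ℝ) < s + e
            linarith⟩ := by
        funext r
        have h1 : 2 * s + e - (r : ℝ) < s + e := by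
          have := r.2.1
          linarith
        simp [val, h1]
      rw [this]
      exact (L ω).continuous.comp (Continuous.subtype_mk (by fun_prop) _)

end Pool.Agent.W7.DL.OTTL
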